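import Mathlib

/-!
# `K_{9,9}` is a bounded tolerance graph but not a max-tolerance graph

In a max-tolerance representation two vertices are adjacent iff `L + t ≤ R` for each choice of `L`,
`t`, `R` from the two vertices. Halving the two sides of `K_{9,9}` three times we find two vertices
on each side such that in each of the three coordinates `L`, `t`, `-R` one side is above the other.
Then the two vertices on one of the sides are adjacent, a contradiction.
-/

set_option autoImplicit false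

namespace Pool.Agent.Results.MP_78c384_co.BicliqueNine

/-- length of the intersection of the intervals `[a, b]` and `[c, d]` -/
noncomputable def interLength (a b c d : ℝ) : ℝ := max 0 (min b d - max a c)

/-- bounded tolerance graphs: each vertex `v` has an interval `[L v, R v]` and a tolerance `t v`
with `0 < t v ≤ R v - L v`, and distinct vertices are adjacent iff the length of the intersection of
their intervals is at least the minimum of their tolerances -/
def IsBoundedTolerance {V : Type} (G : SimpleGraph V) : Prop :=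
  ∃ L R t : V → ℝ, (∀ v, L v ≤ R v) ∧ (∀ v, 0 < t v) ∧ (∀ v, t v ≤ R v - L v) ∧
    ∀ x y, x ≠ y → (G.Adj x y ↔ min (t x) (t y) ≤ interLength (L x) (R x) (L y) (R y))

/-- max-tolerance graphs: each vertex `v` has an interval `[L v, R v]` and a tolerance `t v > 0`,
and distinct vertices are adjacent iff the length of the intersection of their intervals is at
least the maximum of their tolerances -/
def IsMaxTolerance {V : Type} (G : SimpleGraph V) : Prop :=
  ∃ L R t : V → ℝ, (∀ v, L v ≤ R v) ∧ (∀ v, 0 < t v) ∧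
    ∀ x y, x ≠ y → (G.Adj x y ↔ max (t x) (t y) ≤ interLength (L x) (R x) (L y) (R y))

/-- `K_{9,9}` -/
abbrev K99 : SimpleGraph (Fin 9 ⊕ Fin 9) := completeBipartiteGraph (Fin 9) (Fin 9)

theorem bounded : IsBoundedTolerance K99 := by
  refine ⟨Sum.elim (fun i => (i.val : ℝ)) (fun j => (j.val : ℝ) - 100),
    Sum.elim (fun i => (i.val : ℝ) + 10) (fun j => (j.val : ℝ) + 100),
    Sum.elim (fun _ => 10) (fun _ => 200), ?_, ?_, ?_, ?_⟩
  · rintro (i | j) <;> simp only [Sum.elim_inl, Sum.elim_inr] <;> linarith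
  · rintro (i | j) <;> simp
  · rintro (i | j) <;> simp only [Sum.elim_inl, Sum.elim_inr] <;> linarith
  · have bnd : ∀ i : Fin 9, (0 : ℝ) ≤ i.val ∧ (i.val : ℝ) ≤ 8 := by
      intro i
      exact ⟨by positivity, by exact_mod_cast (by omega : i.val ≤ 8)⟩
    have key : ∀ (i j : Fin 9), i ≠ j → (i.val : ℝ) < j.val ∨ (j.val : ℝ) < i.val := by
      intro i j hij
      rcases lt_or_gt_of_ne (fun h => hij (Fin.ext h) : i.val ≠ j.val) with h | h
      · exact Or.inl (by exact_mod_cast h)
      · exact Or.inr (by exact_mod_cast h)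
    rintro (i | i) (j | j) hij
    · have hij' : i ≠ j := fun h => hij (by rw [h])
      simp only [completeBipartiteGraph_adj, Sum.isLeft_inl, Sum.isRight_inl, interLength,
        Sum.elim_inl]
      simp only [Bool.false_eq_true, and_false, false_and, or_self, false_iff, not_le]
      rw [min_self, max_lt_iff]
      refine ⟨by norm_num, ?_⟩
      rcases key i j hij' with h | h
      · rw [min_eq_left (by linarith), max_eq_right (by linarith)]; linarith
      · rw [min_eq_right (by linarith), max_eq_left (by linarith)]; linarith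
    · simp only [completeBipartiteGraph_adj, Sum.isLeft_inl, Sum.isRight_inr, interLength,
        Sum.elim_inl, Sum.elim_inr]
      simp only [and_self, true_or, true_iff]
      rw [min_eq_left (by norm_num), le_max_iff]
      right
      obtain ⟨h1, h2⟩ := bnd i
      obtain ⟨h3, h4⟩ := bnd j
      rw [min_eq_left (by linarith), max_eq_left (by linarith)]
      linarith
    · simp only [completeBipartiteGraph_adj, Sum.isLeft_inl, Sum.isRight_inr, interLength,
        Sum.elim_inl, Sum.elim_inr]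
      simp only [and_self, or_true, true_iff]
      rw [min_eq_right (by norm_num), le_max_iff]
      right
      obtain ⟨h1, h2⟩ := bnd i
      obtain ⟨h3, h4⟩ := bnd j
      rw [min_eq_right (by linarith), max_eq_right (by linarith)]
      linarith
    · have hij' : i ≠ j := fun h => hij (by rw [h])
      simp only [completeBipartiteGraph_adj, Sum.isLeft_inr, Sum.isRight_inr, interLength,
        Sum.elim_inr]
      simp only [Bool.false_eq_true, and_true, true_and, or_self, false_iff, not_le]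
      rw [min_self, max_lt_iff]
      refine ⟨by norm_num, ?_⟩
      rcases key i j hij' with h | h
      · rw [min_eq_left (by linarith), max_eq_right (by linarith)]; linarith
      · rw [min_eq_right (by linarith), max_eq_left (by linarith)]; linarith

/-- halving -/
theorem halve {α β : Type} (A : Finset α) (B : Finset β) (f : α → ℝ) (g : β → ℝ) (m : ℕ)
    (hm : 1 ≤ m) (hA : 2 * m - 1 ≤ A.card) (hB : 2 * m - 1 ≤ B.card) :
    ∃ A' ⊆ A, ∃ B' ⊆ B, m ≤ A'.card ∧ m ≤ B'.card ∧
      ((∀ a ∈ A', ∀ b ∈ B', g b ≤ f a) ∨ (∀ a ∈ A', ∀ b ∈ B', f a ≤ g b)) := by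
  classical
  -- the set of elements with at least `m` elements above
  have hne : (A.filter (fun a => m ≤ (A.filter (fun x => f a ≤ f x)).card)).Nonempty := by
    have hAne : A.Nonempty := by
      rw [← Finset.card_pos]; omega
    obtain ⟨a, ha, hmin⟩ := A.exists_min_image f hAne
    refine ⟨a, Finset.mem_filter.mpr ⟨ha, ?_⟩⟩
    rw [Finset.filter_true_of_mem hmin]
    omega
  obtain ⟨a0, ha0, hmax⟩ := Finset.exists_max_image _ f hne
  rw [Finset.mem_filter] at ha0
  have habove : (A.filter (fun x => f a0 < f x)).card < m := by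
    by_contra hge
    rw [not_lt] at hge
    have hne' : (A.filter (fun x => f a0 < f x)).Nonempty := by
      rw [← Finset.card_pos]; omega
    obtain ⟨a1, ha1, hmin1⟩ := Finset.exists_min_image _ f hne'
    rw [Finset.mem_filter] at ha1
    have : a1 ∈ A.filter (fun a => m ≤ (A.filter (fun x => f a ≤ f x)).card) := by
      rw [Finset.mem_filter]
      refine ⟨ha1.1, hge.trans (Finset.card_le_card ?_)⟩
      intro x hx
      have hx1 := hmin1 x hx
      rw [Finset.mem_filter] at hx ⊢
      exact ⟨hx.1, hx1⟩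
    have := hmax a1 this
    linarith [ha1.2]
  have hbelow : m ≤ (A.filter (fun x => f x ≤ f a0)).card := by
    have h1 := Finset.card_filter_add_card_filter_not (s := A) (fun x => f a0 < f x)
    have h2 : A.filter (fun x => ¬ f a0 < f x) = A.filter (fun x => f x ≤ f a0) := by
      apply Finset.filter_congr
      intro x _
      exact not_lt
    rw [h2] at h1
    omega
  by_cases hBc : m ≤ (B.filter (fun y => g y ≤ f a0)).card
  · refine ⟨_, Finset.filter_subset _ _, _, Finset.filter_subset _ _, ha0.2, hBc, Or.inl ?_⟩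
    intro a ha b hb
    rw [Finset.mem_filter] at ha hb
    linarith [ha.2, hb.2]
  · have hBd : m ≤ (B.filter (fun y => f a0 ≤ g y)).card := by
      have h1 := Finset.card_filter_add_card_filter_not (s := B) (fun y => g y ≤ f a0)
      have h2 : (B.filter (fun y => ¬ g y ≤ f a0)).card ≤ (B.filter (fun y => f a0 ≤ g y)).card := by
        apply Finset.card_le_card
        intro x hx
        rw [Finset.mem_filter] at hx ⊢
        exact ⟨hx.1, (not_le.mp hx.2).le⟩
      omega
    refine ⟨_, Finset.filter_subset _ _, _, Finset.filter_subset _ _, hbelow, hBd, Or.inr ?_⟩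
    intro a ha b hb
    rw [Finset.mem_filter] at ha hb
    linarith [ha.2, hb.2]

/-- adjacency in a max-tolerance representation -/
theorem max_iff {a b c d s t : ℝ} (hs : 0 < s) :
    max s t ≤ interLength a b c d ↔
      (a + s ≤ b ∧ a + s ≤ d ∧ a + t ≤ b ∧ a + t ≤ d) ∧
      (c + s ≤ b ∧ c + s ≤ d ∧ c + t ≤ b ∧ c + t ≤ d) := by
  unfold interLength
  have hpos : 0 < max s t := lt_max_of_lt_left hs
  rw [le_max_iff]
  constructor
  · rintro (h | h)
    · linarith
    · have h1 : s ≤ max s t := le_max_left _ _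
      have h2 : t ≤ max s t := le_max_right _ _
      have h3 : min b d ≤ b := min_le_left _ _
      have h4 : min b d ≤ d := min_le_right _ _
      have h5 : a ≤ max a c := le_max_left _ _
      have h6 : c ≤ max a c := le_max_right _ _
      refine ⟨⟨?_, ?_, ?_, ?_⟩, ?_, ?_, ?_, ?_⟩ <;> linarith
  · rintro ⟨⟨h1, h2, h3, h4⟩, h5, h6, h7, h8⟩
    right
    rcases max_choice s t with e1 | e1 <;> rcases min_choice b d with e2 | e2 <;>
      rcases max_choice a c with e3 | e3 <;> rw [e1, e2, e3] <;> linarith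

/-- two vertices `x ≠ y` with a common neighbour `z` that is above both of them in at least two of
the coordinates `L`, `t`, `-R` (the same ones) are adjacent -/
theorem adj_of {Lx Rx tx Ly Ry ty Lz Rz tz : ℝ} (htx : 0 < tx) (hty : 0 < ty)
    (h1 : max tx tz ≤ interLength Lx Rx Lz Rz) (h2 : max ty tz ≤ interLength Ly Ry Lz Rz)
    (h : ((tx ≤ tz ∧ ty ≤ tz) ∧ (Rz ≤ Rx ∧ Rz ≤ Ry)) ∨ ((Lx ≤ Lz ∧ Ly ≤ Lz) ∧ (Rz ≤ Rx ∧ Rz ≤ Ry)) ∨
      ((Lx ≤ Lz ∧ Ly ≤ Lz) ∧ (tx ≤ tz ∧ ty ≤ tz))) :
    max tx ty ≤ interLength Lx Rx Ly Ry := by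
  rw [max_iff htx] at h1 ⊢
  rw [max_iff hty] at h2
  obtain ⟨⟨p1, p2, p3, p4⟩, p5, p6, p7, p8⟩ := h1
  obtain ⟨⟨q1, q2, q3, q4⟩, q5, q6, q7, q8⟩ := h2
  rcases h with ⟨⟨h1, h2⟩, h3, h4⟩ | ⟨⟨h1, h2⟩, h3, h4⟩ | ⟨⟨h1, h2⟩, h3, h4⟩ <;>
    refine ⟨⟨?_, ?_, ?_, ?_⟩, ?_, ?_, ?_, ?_⟩ <;> linarith

theorem not_max : ¬ IsMaxTolerance K99 := by
  classical
  rintro ⟨L, R, t, hLR, ht, hadj⟩
  -- separate the two sides in the three coordinates
  obtain ⟨A1, -, B1, -, hA1, hB1, hL⟩ := halve (Finset.univ : Finset (Fin 9))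
    (Finset.univ : Finset (Fin 9)) (fun i => L (.inl i)) (fun j => L (.inr j)) 5 (by norm_num)
    (by simp) (by simp)
  obtain ⟨A2, hAs2, B2, hBs2, hA2, hB2, hT⟩ := halve A1 B1 (fun i => t (.inl i))
    (fun j => t (.inr j)) 3 (by norm_num) (by omega) (by omega)
  obtain ⟨A3, hAs3, B3, hBs3, hA3, hB3, hR⟩ := halve A2 B2 (fun i => R (.inl i))
    (fun j => R (.inr j)) 2 (by norm_num) (by omega) (by omega)
  obtain ⟨i, hi, k, hk, hik⟩ := Finset.one_lt_card.mp (by omega : 1 < A3.card)
  obtain ⟨j, hj, l, hl, hjl⟩ := Finset.one_lt_card.mp (by omega : 1 < B3.card)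
  have cross : ∀ a b : Fin 9, max (t (.inl a)) (t (.inr b)) ≤
      interLength (L (.inl a)) (R (.inl a)) (L (.inr b)) (R (.inr b)) := by
    intro a b
    exact (hadj (.inl a) (.inr b) (by simp)).mp (by simp)
  have cross' : ∀ a b : Fin 9, max (t (.inr b)) (t (.inl a)) ≤
      interLength (L (.inr b)) (R (.inr b)) (L (.inl a)) (R (.inl a)) := by
    intro a b
    exact (hadj (.inr b) (.inl a) (by simp)).mp (by simp)
  have hno1 : ¬ max (t (.inl i)) (t (.inl k)) ≤
      interLength (L (.inl i)) (R (.inl i)) (L (.inl k)) (R (.inl k)) := by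
    intro h
    have := (hadj (.inl i) (.inl k) (by simpa using hik)).mpr h
    simp at this
  have hno2 : ¬ max (t (.inr j)) (t (.inr l)) ≤
      interLength (L (.inr j)) (R (.inr j)) (L (.inr l)) (R (.inr l)) := by
    intro h
    have := (hadj (.inr j) (.inr l) (by simpa using hjl)).mpr h
    simp at this
  have key1 := adj_of (ht (.inl i)) (ht (.inl k)) (cross i j) (cross k j)
  have key2 := adj_of (ht (.inr j)) (ht (.inr l)) (cross' i j) (cross' i l)
  have mA1 : ∀ x ∈ A3, x ∈ A1 := fun x hx => hAs2 (hAs3 hx)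
  have mB1 : ∀ x ∈ B3, x ∈ B1 := fun x hx => hBs2 (hBs3 hx)
  rcases hL with hL | hL <;> rcases hT with hT | hT <;> rcases hR with hR | hR
  · -- A above in L, t; below in -R
    exact hno2 (key2 (Or.inr (Or.inr ⟨⟨hL i (mA1 i hi) j (mB1 j hj), hL i (mA1 i hi) l (mB1 l hl)⟩,
      hT i (hAs3 hi) j (hBs3 hj), hT i (hAs3 hi) l (hBs3 hl)⟩)))
  · exact hno2 (key2 (Or.inr (Or.inr ⟨⟨hL i (mA1 i hi) j (mB1 j hj), hL i (mA1 i hi) l (mB1 l hl)⟩,
      hT i (hAs3 hi) j (hBs3 hj), hT i (hAs3 hi) l (hBs3 hl)⟩)))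
  · exact hno1 (key1 (Or.inl ⟨⟨hT i (hAs3 hi) j (hBs3 hj), hT k (hAs3 hk) j (hBs3 hj)⟩,
      hR i hi j hj, hR k hk j hj⟩))
  · exact hno2 (key2 (Or.inr (Or.inl ⟨⟨hL i (mA1 i hi) j (mB1 j hj), hL i (mA1 i hi) l (mB1 l hl)⟩,
      hR i hi j hj, hR i hi l hl⟩)))
  · exact hno1 (key1 (Or.inr (Or.inl ⟨⟨hL i (mA1 i hi) j (mB1 j hj), hL k (mA1 k hk) j (mB1 j hj)⟩,
      hR i hi j hj, hR k hk j hj⟩)))
  · exact hno2 (key2 (Or.inl ⟨⟨hT i (hAs3 hi) j (hBs3 hj), hT i (hAs3 hi) l (hBs3 hl)⟩,
      hR i hi j hj, hR i hi l hl⟩))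
  · exact hno1 (key1 (Or.inr (Or.inr ⟨⟨hL i (mA1 i hi) j (mB1 j hj), hL k (mA1 k hk) j (mB1 j hj)⟩,
      hT i (hAs3 hi) j (hBs3 hj), hT k (hAs3 hk) j (hBs3 hj)⟩)))
  · exact hno1 (key1 (Or.inr (Or.inr ⟨⟨hL i (mA1 i hi) j (mB1 j hj), hL k (mA1 k hk) j (mB1 j hj)⟩,
      hT i (hAs3 hi) j (hBs3 hj), hT k (hAs3 hk) j (hBs3 hj)⟩)))

/-- The complete bipartite graph `K_{9,9}` is a bounded tolerance graph but not a max-tolerance
graph. -/
theorem result : IsBoundedTolerance (completeBipartiteGraph (Fin 9) (Fin 9)) ∧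
    ¬ IsMaxTolerance (completeBipartiteGraph (Fin 9) (Fin 9)) :=
  ⟨bounded, not_max⟩

end Pool.Agent.Results.MP_78c384_co.BicliqueNine
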